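import Pool.Agent.H.MP_034cab_an.C

set_option autoImplicit false

namespace Pool.Agent.Results.MP_034cab_an.Order
open Filter Asymptotics Metric Finset

/-- `f z = ∑ a n z ^ n` on the unit disc, `a 0 = 1`, positive real part, Bloch. -/
def InC (a : ℕ → ℂ) (f : ℂ → ℂ) : Prop :=
  a 0 = 1 ∧ (∀ z ∈ ball (0 : ℂ) 1, HasSum (fun n => a n * z ^ n) (f z)) ∧
    (∀ z ∈ ball (0 : ℂ) 1, 0 < (f z).re) ∧
    ∃ C : ℝ, ∀ z ∈ ball (0 : ℂ) 1, (1 - ‖z‖ ^ 2) * ‖deriv f z‖ ≤ C

theorem result :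
    (∀ a f, InC a f → (fun N : ℕ => ∑ n ∈ Icc 1 N, ‖a n‖ ^ 2) =O[atTop]
      fun N : ℕ => √(Real.log N)) ∧
    ∃ a f, InC a f ∧ (fun N : ℕ => √(Real.log N)) =O[atTop]
      fun N : ℕ => ∑ n ∈ Icc 1 N, ‖a n‖ ^ 2 := by
  constructor
  · rintro a f ⟨h0, h1, h2, C, h3⟩
    have e1 : H.MP_034cab_an.Rd a := (H.MP_034cab_an.rd_of fun r r0 r1 => by
      have := (h1 r (by simpa [abs_of_pos r0] using r1)).summable.tendsto_atTop_zero.norm
      obtain ⟨B, hB⟩ := this.bddAbove_range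
      exact ⟨B, fun n => by simpa [abs_of_pos r0] using hB ⟨n, rfl⟩⟩).1
    have e2 : ∀ z ∈ ball (0 : ℂ) 1, f z = H.MP_034cab_an.PS a z := fun z hz =>
      (h1 z hz).tsum_eq.symm
    refine IsBigO.of_bound (2 * (2 + 4 * C ^ 2)) ((eventually_ge_atTop 3).mono fun N hN => ?_)
    rw [Real.norm_of_nonneg (sum_nonneg fun _ _ => sq_nonneg _),
      Real.norm_of_nonneg (Real.sqrt_nonneg _)]
    refine H.MP_034cab_an.upper e1 h0 (fun z hz => ?_) (fun z hz => ?_) hN
    · exact e2 z (mem_ball_zero_iff.mpr hz) ▸ (h2 z (mem_ball_zero_iff.mpr hz)).le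
    · rw [← (e1.der hz).deriv, ← EventuallyEq.deriv_eq (eventually_of_mem
        (isOpen_ball.mem_nhds (mem_ball_zero_iff.mpr hz)) e2)]
      exact h3 z (mem_ball_zero_iff.mpr hz)
  obtain ⟨a, h1, h2, h3, h4, h5⟩ := H.MP_034cab_an.lower
  refine ⟨fun n => (a n + (Pi.single 0 1 : ℕ → ℂ) n) / 2, fun z => (H.MP_034cab_an.PS a z + 1) / 2,
    ⟨by simp [h2], fun z hz => ?_, fun z hz => ?_, 1024, fun z hz => ?_⟩, ?_⟩
  · have := (((h1.sum (mem_ball_zero_iff.mp hz)).of_norm.hasSum.add (hasSum_single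
      (f := fun n => (Pi.single 0 1 : ℕ → ℂ) n * z ^ n) 0 fun n hn => by simp [hn])).div_const 2)
    simp only [Pi.single_eq_same, pow_zero, mul_one, ← add_mul, mul_div_right_comm] at this
    exact this
  · have := h3 z (mem_ball_zero_iff.mp hz)
    simp only [Complex.div_ofNat_re, Complex.add_re, Complex.one_re]
    linarith
  · rw [(((h1.der (mem_ball_zero_iff.mp hz)).add_const 1).div_const 2).deriv, norm_div,
      Complex.norm_two]
    linarith [h4 z (mem_ball_zero_iff.mp hz)]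
  refine IsBigO.of_bound 32 ((eventually_ge_atTop (512 ^ 324)).mono fun N hN => ?_)
  have n0 : N ≠ 0 := by
    rintro rfl
    exact absurd hN (not_le.mpr (by positivity))
  have k1 : (324 : ℝ) ≤ Nat.log 512 N := by
    exact_mod_cast Nat.le_log_of_pow_le (by norm_num) hN
  have k2 : Real.log N ≤ 16 * Nat.log 512 N := by
    have b1 : (N : ℝ) ≤ 2 ^ (9 * (Nat.log 512 N + 1)) := by
      rw [pow_mul]
      exact_mod_cast (Nat.lt_pow_succ_log_self (by norm_num : 1 < 512) N).le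
    have b2 := Real.log_le_log (by positivity) b1
    rw [Real.log_pow] at b2
    push_cast at b2
    nlinarith [Real.log_two_lt_d9]
  have k3 := Real.sqrt_le_sqrt k2
  have k4 := Real.sqrt_le_sqrt k1
  rw [Real.sqrt_mul (by norm_num), show (16 : ℝ) = 4 ^ 2 by norm_num,
    Real.sqrt_sq (by norm_num)] at k3
  rw [show (324 : ℝ) = 18 ^ 2 by norm_num, Real.sqrt_sq (by norm_num)] at k4
  have k5 := (h5 _).trans (sum_le_sum_of_subset_of_nonneg (Icc_subset_Icc_right
    (Nat.pow_log_le_self 512 n0)) fun _ _ _ => sq_nonneg _)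
  rw [Real.norm_of_nonneg (sum_nonneg fun _ _ => sq_nonneg _),
    Real.norm_of_nonneg (Real.sqrt_nonneg _), sum_congr rfl (g := fun n => ‖a n‖ ^ 2 / 4)
      fun n hn => by
        have : n ≠ 0 := by have := (mem_Icc.mp hn).1; omega
        simp [this, div_pow]
        norm_num, ← sum_div]
  linarith

end Pool.Agent.Results.MP_034cab_an.Order
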